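import Pool.Agent.H761R3.CQ.Stmts

/-!
Task V of the project H761-CQ: confinement of a family with few unqueried pairs to a small set.
-/

set_option autoImplicit false

namespace H721CQ

open Finset H761CQ

theorem hs {n : ℕ} (E : Finset (Sym2 (Fin n))) (H : Finset (Fin n))
    (N : Fin n → Finset (Fin n)) (h : ∀ z ∈ H, ∀ y ∈ N z, s(z, y) ∈ E) :
    ∑ z ∈ H, (N z).card ≤ 2 * E.card := by
  rw [← Finset.card_sigma H N]
  apply Finset.card_le_mul_card_image_of_maps_to (f := fun p : (Σ _ : Fin n, Fin n) => s(p.1, p.2))
  · intro p hp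
    rw [Finset.mem_sigma] at hp
    exact h _ hp.1 _ hp.2
  · intro e _
    induction e using Sym2.ind with
    | _ a b =>
      have hsub : ((H.sigma N).filter fun p : (Σ _ : Fin n, Fin n) => s(p.1, p.2) = s(a, b)) ⊆
          {(⟨a, b⟩ : Σ _ : Fin n, Fin n), ⟨b, a⟩} := by
        rintro ⟨x, y⟩ hp
        rw [Finset.mem_filter] at hp
        have hp2 := hp.2
        simp only [Sym2.eq_iff] at hp2
        rw [Finset.mem_insert, Finset.mem_singleton]
        rcases hp2 with ⟨rfl, rfl⟩ | ⟨rfl, rfl⟩
        · left; rfl
        · right; rfl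
      exact (Finset.card_le_card hsub).trans Finset.card_le_two

theorem taskV : TaskV := by
  classical
  intro n q u θ d m Q 𝒜 hQ hne hu hθ hdm hq hd hA
  -- the degree
  let N : Fin n → Finset (Fin n) := fun z => univ.filter fun y => s(z, y) ∈ Q
  let High : Finset (Fin n) := univ.filter fun z => d < (N z).card
  have hHigh : High.card ≤ m := by
    have h1 : ∑ z ∈ High, (N z).card ≤ 2 * Q.card := by
      apply hs
      intro z _ y hy
      exact (Finset.mem_filter.1 hy).2
    have h2 : High.card * d ≤ ∑ z ∈ High, (N z).card := by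
      rw [← smul_eq_mul]
      apply Finset.card_nsmul_le_sum
      intro z hz
      exact (Finset.mem_filter.1 hz).2.le
    have h3 : High.card * d ≤ m * d := by
      calc High.card * d ≤ 2 * Q.card := h2.trans h1
        _ ≤ 2 * q := by omega
        _ ≤ d * m := hq
        _ = m * d := Nat.mul_comm _ _
    exact Nat.le_of_mul_le_mul_right h3 (by omega)
  let V : Option (Fin n) → Finset (Fin n) := fun o => match o with
    | none => High
    | some z => if (N z).card ≤ d then N z else ∅
  have hV : ∀ o, (V o).card ≤ m := by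
    intro o
    cases o with
    | none => exact hHigh
    | some z =>
      show (if (N z).card ≤ d then N z else ∅).card ≤ m
      split_ifs with h
      · exact h.trans hdm
      · simp
  have hcov : ∀ S ∈ 𝒜, ∃ o, (S \ V o).card ≤ θ + 1 := by
    intro S hS
    by_cases hc : ∃ z ∈ S, (N z).card ≤ d ∧
        (S.filter fun y => y ≠ z ∧ s(z, y) ∉ Q).card ≤ θ
    · obtain ⟨z, hzS, hzd, hz⟩ := hc
      refine ⟨some z, ?_⟩
      have hVz : V (some z) = N z := by
        show (if (N z).card ≤ d then N z else ∅) = N z
        rw [if_pos hzd]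
      rw [hVz]
      have hsub : S \ N z ⊆ insert z (S.filter fun y => y ≠ z ∧ s(z, y) ∉ Q) := by
        intro y hy
        rw [Finset.mem_sdiff] at hy
        rw [Finset.mem_insert, Finset.mem_filter]
        by_cases hyz : y = z
        · left; exact hyz
        · right
          refine ⟨hy.1, hyz, fun hq => hy.2 ?_⟩
          exact Finset.mem_filter.2 ⟨Finset.mem_univ _, hq⟩
      calc (S \ N z).card ≤ _ := Finset.card_le_card hsub
        _ ≤ (S.filter fun y => y ≠ z ∧ s(z, y) ∉ Q).card + 1 := Finset.card_insert_le _ _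
        _ ≤ θ + 1 := by omega
    · push Not at hc
      refine ⟨none, ?_⟩
      show (S \ High).card ≤ θ + 1
      have h1 : ∑ z ∈ S \ High, (S.filter fun y => y ≠ z ∧ s(z, y) ∉ Q).card ≤
          2 * (prs S \ Q).card := by
        apply hs
        intro z hz y hy
        rw [Finset.mem_sdiff] at hz
        rw [Finset.mem_filter] at hy
        rw [Finset.mem_sdiff]
        refine ⟨?_, hy.2.2⟩
        unfold prs
        rw [Finset.mem_filter, Finset.mk_mem_sym2_iff]
        refine ⟨⟨hz.1, hy.1⟩, ?_⟩
        rw [Sym2.mk_isDiag_iff]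
        exact fun h => hy.2.1 h.symm
      have h2 : (S \ High).card * (θ + 1) ≤
          ∑ z ∈ S \ High, (S.filter fun y => y ≠ z ∧ s(z, y) ∉ Q).card := by
        rw [← smul_eq_mul]
        apply Finset.card_nsmul_le_sum
        intro z hz
        rw [Finset.mem_sdiff] at hz
        have hzd : (N z).card ≤ d := by
          by_contra hcon
          exact hz.2 (Finset.mem_filter.2 ⟨Finset.mem_univ _, by omega⟩)
        have := hc z hz.1 hzd
        omega
      have h3 : (S \ High).card * (θ + 1) ≤ θ * θ := by
        have := hA S hS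
        omega
      have h4 : (S \ High).card * (θ + 1) ≤ θ * (θ + 1) := by nlinarith
      have h5 := Nat.le_of_mul_le_mul_right h4 (by omega)
      omega
  by_contra hcon
  push Not at hcon
  have hall : ∀ o, (n + 1) * (𝒜.filter fun S => (S \ V o).card ≤ θ + 1).card < 𝒜.card :=
    fun o => hcon (V o) (hV o)
  have hsum : 𝒜.card ≤ ∑ o : Option (Fin n), (𝒜.filter fun S => (S \ V o).card ≤ θ + 1).card := by
    calc 𝒜.card ≤ (univ.biUnion fun o : Option (Fin n) =>
          𝒜.filter fun S => (S \ V o).card ≤ θ + 1).card := by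
          apply Finset.card_le_card
          intro S hS
          rw [Finset.mem_biUnion]
          obtain ⟨o, ho⟩ := hcov S hS
          exact ⟨o, Finset.mem_univ _, Finset.mem_filter.2 ⟨hS, ho⟩⟩
      _ ≤ _ := Finset.card_biUnion_le
  have hlt : ∑ o : Option (Fin n),
      ((n + 1) * (𝒜.filter fun S => (S \ V o).card ≤ θ + 1).card) <
      ∑ _o : Option (Fin n), 𝒜.card :=
    Finset.sum_lt_sum_of_nonempty ⟨none, Finset.mem_univ _⟩ fun o _ => hall o
  rw [← Finset.mul_sum, Finset.sum_const, Finset.card_univ, Fintype.card_option, Fintype.card_fin,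
    smul_eq_mul] at hlt
  have := Nat.lt_of_mul_lt_mul_left hlt
  omega

end H721CQ
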